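import Pool.Agent.V7H45.CY.Spec
import Pool.Agent.V7H45.G8.Exp

/-!
# Project CYC: job X, the local count beyond its explicit part
-/

set_option autoImplicit false

namespace Pool.Agent.V7H88.CY

open Finset Pool.Agent.W262.RK Pool.Agent.W108.RK Pool.Agent.W762.RK2 Pool.Agent.V7H45.G8
  Pool.Agent.V7H45.CY

/-- the sum over the tuples of a product of local weights is an Euler product -/
lemma sum_pw {ι : Type} [Fintype ι] [DecidableEq ι] (z y : ℕ) (g : ι → ℕ → ℝ) :
    ∑ d ∈ Tup ι z y, ∏ i, pw (g i) (d i) = ∏ p : Pr z y, (1 + ∑ i, g i p) := by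
  rw [sum_Tup]
  simp only [prod_pw]
  have h : ∀ p : Pr z y, (1 + ∑ i, g i p) = ∑ x : Option ι, x.elim 1 fun i => g i p := by
    intro p
    rw [Fintype.sum_option]
    rfl
  simp only [h]
  rw [Finset.prod_univ_sum, Fintype.piFinset_univ]

lemma pw_mul (t : ℝ) (g : ℕ → ℝ) (d : ℕ) : pw (fun p => t * g p) d = t ^ d.primeFactors.card * pw g d := by
  unfold pw
  rw [Finset.prod_mul_distrib, Finset.prod_const]

/-- the sum of the local weights -/
lemma loc4 (c : Fin 4) (hc : c ≠ 3) (x : ℝ) :
    ∑ r : (Bool × Bool) × (Bool × Bool), (if Al c r.1 r.2 = true then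
      (if c = 1 ∨ r = ((false, false), (false, false)) then
        (if c = 3 then (1 : ℝ) / 4 else 1 / 2) * x else 0) else 0) =
      (if c = 1 then (2 : ℝ) else 1 / 2) * x := by
  simp only [Fintype.sum_prod_type, Fintype.sum_bool]
  fin_cases c
  · simp [Al, ec]
  · simp [Al, ec]
    ring
  · simp [Al, ec]
  · exact absurd rfl hc

section

variable {J : Type} [Fintype J] [DecidableEq J]

omit [DecidableEq J] in
/-- the symbols of the explicit indices are trivial -/
lemma Sym_ex (cls : J → Fin 4) (κ : J → Fin 3 → ℤ) (h1 : ∀ j, cls j = 1 → κ j 0 = 1)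
    (d : I4 cls → ℕ)
    (hd : ∀ i : I4 cls, ¬ (cls i.1.1 = 1 ∨ i.1.2 = ((false, false), (false, false))) → d i = 1) :
    Pool.Agent.W262.RK.Sym (L4 cls) (κ4 cls κ) d = 1 := by
  have hA : ∀ v x : Bool × Bool, Al 1 v x = true → v.2 = false ∧ x.1 = false := by decide
  have key : ∀ i : I4 cls, (cls i.1.1 = 1 ∨ i.1.2 = ((false, false), (false, false))) →
      i.1.2.1.2 = false ∧ i.1.2.2.1 = false := by
    rintro i (h | h)
    · have := i.2
      rw [h] at this
      exact hA _ _ this
    · rw [h]
      exact ⟨rfl, rfl⟩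
  unfold Pool.Agent.W262.RK.Sym
  have e1 : ∀ i i' : I4 cls, (if L4 cls i i' = true then Jr (d i) (d i') else 1) = 1 := by
    intro i i'
    by_cases hi : cls i.1.1 = 1 ∨ i.1.2 = ((false, false), (false, false))
    · by_cases hi' : cls i'.1.1 = 1 ∨ i'.1.2 = ((false, false), (false, false))
      · have : L4 cls i i' = false := by
          unfold L4
          rw [(key i hi).1, (key i' hi').2]
          simp
        rw [this]
        simp
      · rw [hd i' hi']
        split_ifs
        · unfold Jr
          rw [jacobiSym.one_right]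
          simp
        · rfl
    · rw [hd i hi]
      split_ifs
      · unfold Jr
        rw [Nat.cast_one, jacobiSym.one_left]
        simp
      · rfl
  have e2 : ∀ i : I4 cls, Jr (κ4 cls κ i) (d i) = 1 := by
    intro i
    by_cases hi : cls i.1.1 = 1 ∨ i.1.2 = ((false, false), (false, false))
    · have : κ4 cls κ i = 1 := by
        unfold κ4
        rcases hi with h | h
        · rw [h]
          have h3 : ¬ ((1 : Fin 4) = 3) := by decide
          rw [if_neg h3, h1 _ h]
          simp
        · rw [h]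
          simp
      rw [this]
      unfold Jr
      rw [jacobiSym.one_left]
      simp
    · rw [hd i hi]
      unfold Jr
      rw [jacobiSym.one_right]
      simp
  simp only [e1, e2, Finset.prod_const_one, mul_one]

open Classical in
/-- the explicit part of the local weights -/
noncomputable def wx (cls : J → Fin 4) (g : J → ℕ → ℝ) (i : I4 cls) (p : ℕ) : ℝ :=
  if cls i.1.1 = 1 ∨ i.1.2 = ((false, false), (false, false)) then w4 cls i * g i.1.1 p else 0

lemma sum_wx (cls : J → Fin 4) (h3 : ∀ j, cls j ≠ 3) (g : J → ℕ → ℝ) (p : ℕ) :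
    ∑ i : I4 cls, wx cls g i p = ∑ j, (if cls j = 1 then (2 : ℝ) else 1 / 2) * g j p := by
  classical
  have h := sum_I4 cls (fun r : J × (Bool × Bool) × (Bool × Bool) =>
    if cls r.1 = 1 ∨ r.2 = ((false, false), (false, false)) then
      (if cls r.1 = 3 then 1 / 4 else 1 / 2) * g r.1 p else 0)
  have h' : ∑ i : I4 cls, wx cls g i p = ∑ r : J × (Bool × Bool) × (Bool × Bool),
      if Al (cls r.1) r.2.1 r.2.2 = true then (if cls r.1 = 1 ∨ r.2 = ((false, false), (false, false))
        then (if cls r.1 = 3 then (1 : ℝ) / 4 else 1 / 2) * g r.1 p else 0) else 0 := by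
    rw [← h]
    rfl
  rw [h', Fintype.sum_prod_type]
  exact Finset.sum_congr rfl fun j _ => loc4 (cls j) (h3 j) (g j p)

end

theorem t_X : S_X := by
  classical
  intro n cls κ g z y h3 hκ0 hκz h1
  have hexp := expg cls (fun j _ => κ j) g z y (fun j _ => hκ0 j) (fun j _ => hκz j)
  have hTT : ∑ s ∈ Tup (Fin n) z y, TT cls s * ∏ j, pw (g j) (s j) =
      ∑ d ∈ (Tup (I4 cls) z y).filter (fun d => ¬ ∃ i : I4 cls,
        ¬ (cls i.1.1 = 1 ∨ i.1.2 = ((false, false), (false, false))) ∧ d i ≠ 1),
      (∏ i, pw (fun p => w4 cls i * g i.1.1 p) (d i)) *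
        Pool.Agent.W262.RK.Sym (L4 cls) (κ4 cls (fun j _ => κ j)) d := by
    have e1 : ∀ s ∈ Tup (Fin n) z y, TT cls s * ∏ j, pw (g j) (s j) =
        ∏ j, pw (fun p => (if cls j = 1 then (2 : ℝ) else 1 / 2) * g j p) (s j) := by
      intro s _
      unfold TT
      rw [← Finset.prod_mul_distrib]
      exact Finset.prod_congr rfl fun j _ => (pw_mul _ _ _).symm
    rw [Finset.sum_congr rfl e1, sum_pw, Finset.sum_filter]
    have e2 : ∀ d ∈ Tup (I4 cls) z y, (if ¬ ∃ i : I4 cls,
        ¬ (cls i.1.1 = 1 ∨ i.1.2 = ((false, false), (false, false))) ∧ d i ≠ 1 then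
        (∏ i, pw (fun p => w4 cls i * g i.1.1 p) (d i)) *
        Pool.Agent.W262.RK.Sym (L4 cls) (κ4 cls (fun j _ => κ j)) d else 0) =
        ∏ i, pw (wx cls g i) (d i) := by
      intro d hd
      split_ifs with hex
      · obtain ⟨i, hi, hdi⟩ := hex
        symm
        apply Finset.prod_eq_zero (Finset.mem_univ i)
        have hd0 : d i ≠ 0 := by
          have := (Finset.mem_filter.1 hd).1
          rw [Fintype.mem_piFinset] at this
          exact (Nat.pos_of_mem_divisors (this i)).ne'
        obtain ⟨q, hq, hqd⟩ := Nat.exists_prime_and_dvd hdi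
        unfold pw
        apply Finset.prod_eq_zero (Nat.mem_primeFactors.2 ⟨hq, hqd, hd0⟩)
        unfold wx
        rw [if_neg hi]
      · have hex' : ∀ i : I4 cls, ¬ (cls i.1.1 = 1 ∨ i.1.2 = ((false, false), (false, false))) →
            d i = 1 := fun i hi => by_contra fun h => hex ⟨i, hi, h⟩
        rw [Sym_ex cls (fun j _ => κ j) h1 d hex', mul_one]
        refine Finset.prod_congr rfl fun i _ => ?_
        by_cases hi : cls i.1.1 = 1 ∨ i.1.2 = ((false, false), (false, false))
        · unfold pw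
          refine Finset.prod_congr rfl fun p _ => ?_
          unfold wx
          rw [if_pos hi]
        · rw [hex' i hi]
          unfold pw
          simp
    rw [Finset.sum_congr rfl e2, sum_pw]
    refine Finset.prod_congr rfl fun p _ => ?_
    rw [sum_wx cls h3]
  have hsplit := Finset.sum_filter_add_sum_filter_not (Tup (I4 cls) z y) (fun d => ∃ i : I4 cls,
        ¬ (cls i.1.1 = 1 ∨ i.1.2 = ((false, false), (false, false))) ∧ d i ≠ 1)
      (fun d => (∏ i, pw (fun p => w4 cls i * g i.1.1 p) (d i)) *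
        Pool.Agent.W262.RK.Sym (L4 cls) (κ4 cls (fun j _ => κ j)) d)
  have e3 : ∑ s ∈ Tup (Fin n) z y, (NB cls (fun j _ => κ j) s - TT cls s) *
      ∏ j, ∏ p ∈ (s j).primeFactors, g j p =
      ∑ s ∈ Tup (Fin n) z y, NB cls (fun j _ => κ j) s * ∏ j, pw (g j) (s j) -
      ∑ s ∈ Tup (Fin n) z y, TT cls s * ∏ j, pw (g j) (s j) := by
    rw [← Finset.sum_sub_distrib]
    refine Finset.sum_congr rfl fun s _ => ?_
    unfold pw
    ring
  rw [e3, hexp, hTT, ← hsplit, add_sub_cancel_right]
  refine Finset.sum_congr (by ext d; simp only [Finset.mem_filter]) fun d _ => rfl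

end Pool.Agent.V7H88.CY
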