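import Pool.Agent.V7H45.CY.Spec3
import Pool.Agent.V7H88.CY.X

/-!
# Project CYC, part 2: job X4, the local count beyond its two explicit parts
-/

set_option autoImplicit false

namespace Pool.Agent.V7H88.CY

open Finset Pool.Agent.W262.RK Pool.Agent.W108.RK Pool.Agent.W762.RK2 Pool.Agent.V7H45.G8
  Pool.Agent.V7H45.CY

/-- the sum of the local weights of the class `k` -/
lemma loc4k (k c : Fin 4) (hk : k ≠ 0) (hc : c ≠ 3) (x t : ℝ) :
    ∑ r : (Bool × Bool) × (Bool × Bool), (if Al c r.1 r.2 = true then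
      (if c = k ∨ r = ((false, false), (false, false)) then
        (if c = 3 then (1 : ℝ) / 4 else 1 / 2) * x *
          (if r.1 = (false, false) ∨ r.2 = (false, false) then 1 else t) else 0) else 0) =
      (if c = k then (3 + t) / 2 else 1 / 2) * x := by
  simp only [Fintype.sum_prod_type, Fintype.sum_bool]
  fin_cases c
  · fin_cases k
    · exact absurd rfl hk
    all_goals simp [Al, ec]
  · fin_cases k
    · exact absurd rfl hk
    all_goals simp [Al, ec]
    all_goals ring
  · fin_cases k
    · exact absurd rfl hk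
    all_goals simp [Al, ec]
    all_goals ring
  · exact absurd rfl hc

section

variable {J : Type} [Fintype J] [DecidableEq J]

/-- the Jacobi symbol at a divisor of `PP z y` -/
lemma Jr_dvdPP {z y d : ℕ} (hd : d ∣ PP z y) (a : ℤ) : Jr a d = ∏ p ∈ d.primeFactors, Jr a p := by
  have h := nb_eq hd
  rw [← h, nb_pf, nb_eq_prod, Jr_prod_right]
  intro p hp
  rw [← nb_pf] at hp
  exact (Nat.prime_of_mem_primeFactors hp).ne_zero

omit [DecidableEq J] in
/-- the symbols of the explicit indices of the class `k` -/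
lemma Sym_exk (cls : J → Fin 4) (κ : J → Fin 3 → ℤ) (k : Fin 4) (hk : k ≠ 0)
    (h3 : ∀ j, cls j ≠ 3) (d : I4 cls → ℕ)
    (hd : ∀ i : I4 cls, ¬ (cls i.1.1 = k ∨ i.1.2 = ((false, false), (false, false))) → d i = 1) :
    Pool.Agent.W262.RK.Sym (L4 cls) (κ4 cls κ) d = ∏ i, Jr (κ4 cls κ i) (d i) := by
  have hA : ∀ k : Fin 4, k ≠ 0 → k ≠ 3 → ∀ v x v' x' : Bool × Bool, Al k v x = true →
      Al k v' x' = true → xor (x'.1 && v.1) (x'.2 && v.2) = false := by decide
  unfold Pool.Agent.W262.RK.Sym
  have e1 : ∀ i i' : I4 cls, (if L4 cls i i' = true then Jr (d i) (d i') else 1) = 1 := by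
    intro i i'
    by_cases hi : cls i.1.1 = k ∨ i.1.2 = ((false, false), (false, false))
    · by_cases hi' : cls i'.1.1 = k ∨ i'.1.2 = ((false, false), (false, false))
      · have : L4 cls i i' = false := by
          unfold L4
          rcases hi with h | h
          · rcases hi' with h' | h'
            · have a1 := i.2
              have a2 := i'.2
              rw [h] at a1
              rw [h'] at a2
              exact hA k hk (h ▸ h3 _) _ _ _ _ a1 a2
            · rw [h']
              simp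
          · rw [h]
            simp
        rw [this]
        simp
      · rw [hd i' hi']
        split_ifs
        · unfold Jr
          rw [jacobiSym.one_right]
          simp
        · rfl
    · rw [hd i hi]
      split_ifs
      · unfold Jr
        rw [Nat.cast_one, jacobiSym.one_left]
        simp
      · rfl
  simp only [e1, Finset.prod_const_one, one_mul]

open Classical in
/-- the explicit part of the local weights, class `k` -/
noncomputable def wxk (cls : J → Fin 4) (κ : J → ℤ) (k : Fin 4) (g : J → ℕ → ℝ) (i : I4 cls)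
    (p : ℕ) : ℝ :=
  if cls i.1.1 = k ∨ i.1.2 = ((false, false), (false, false)) then
    w4 cls i * g i.1.1 p * Jr (κ4 cls (fun j _ => κ j) i) p else 0

omit [Fintype J] [DecidableEq J] in
lemma κ4_ne3 (cls : J → Fin 4) (h3 : ∀ j, cls j ≠ 3) (κ : J → ℤ) (i : I4 cls) :
    κ4 cls (fun j _ => κ j) i =
      if i.1.2.1 = (false, false) ∨ i.1.2.2 = (false, false) then 1 else κ i.1.1 := by
  unfold κ4
  rw [if_neg (h3 _)]

lemma sum_wxk (cls : J → Fin 4) (h3 : ∀ j, cls j ≠ 3) (κ : J → ℤ) (k : Fin 4) (hk : k ≠ 0)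
    (g : J → ℕ → ℝ) (p : ℕ) :
    ∑ i : I4 cls, wxk cls κ k g i p =
      ∑ j, (if cls j = k then (3 + Jr (κ j) p) / 2 else 1 / 2) * g j p := by
  classical
  have h := sum_I4 cls (fun r : J × (Bool × Bool) × (Bool × Bool) =>
    if cls r.1 = k ∨ r.2 = ((false, false), (false, false)) then
      (if cls r.1 = 3 then 1 / 4 else 1 / 2) * g r.1 p *
        (if r.2.1 = (false, false) ∨ r.2.2 = (false, false) then 1 else Jr (κ r.1) p) else 0)
  have h' : ∑ i : I4 cls, wxk cls κ k g i p = ∑ r : J × (Bool × Bool) × (Bool × Bool),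
      if Al (cls r.1) r.2.1 r.2.2 = true then (if cls r.1 = k ∨ r.2 = ((false, false), (false, false))
        then (if cls r.1 = 3 then (1 : ℝ) / 4 else 1 / 2) * g r.1 p *
        (if r.2.1 = (false, false) ∨ r.2.2 = (false, false) then 1 else Jr (κ r.1) p)
          else 0) else 0 := by
    rw [← h]
    refine Finset.sum_congr rfl fun i _ => ?_
    unfold wxk
    rw [κ4_ne3 cls h3]
    refine if_congr Iff.rfl ?_ rfl
    unfold w4
    congr 1
    split_ifs
    · unfold Jr
      rw [jacobiSym.one_left]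
      simp
    · rfl
  rw [h', Fintype.sum_prod_type]
  exact Finset.sum_congr rfl fun j _ => loc4k k (cls j) hk (h3 j) (g j p) (Jr (κ j) p)

/-- the explicit part of the class `k` as a sum over the tuples -/
lemma key_k {n : ℕ} (cls : Fin n → Fin 4) (κ : Fin n → ℤ) (g : Fin n → ℕ → ℝ) (z y : ℕ)
    (h3 : ∀ j, cls j ≠ 3) (k : Fin 4) (hk : k ≠ 0) :
    ∑ s ∈ Tup (Fin n) z y, TK cls κ k s * ∏ j, pw (g j) (s j) =
      ∑ d ∈ (Tup (I4 cls) z y).filter (fun d => ¬ ∃ i : I4 cls,
        ¬ (cls i.1.1 = k ∨ i.1.2 = ((false, false), (false, false))) ∧ d i ≠ 1),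
      (∏ i, pw (fun p => w4 cls i * g i.1.1 p) (d i)) *
        Pool.Agent.W262.RK.Sym (L4 cls) (κ4 cls (fun j _ => κ j)) d := by
  classical
  have e1 : ∀ s ∈ Tup (Fin n) z y, TK cls κ k s * ∏ j, pw (g j) (s j) =
      ∏ j, pw (fun p => (if cls j = k then (3 + Jr (κ j) p) / 2 else 1 / 2) * g j p) (s j) := by
    intro s _
    unfold TK
    rw [← Finset.prod_mul_distrib]
    refine Finset.prod_congr rfl fun j _ => ?_
    unfold pw
    rw [← Finset.prod_mul_distrib]
  rw [Finset.sum_congr rfl e1, sum_pw, Finset.sum_filter]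
  have e2 : ∀ d ∈ Tup (I4 cls) z y, (if ¬ ∃ i : I4 cls,
      ¬ (cls i.1.1 = k ∨ i.1.2 = ((false, false), (false, false))) ∧ d i ≠ 1 then
      (∏ i, pw (fun p => w4 cls i * g i.1.1 p) (d i)) *
      Pool.Agent.W262.RK.Sym (L4 cls) (κ4 cls (fun j _ => κ j)) d else 0) =
      ∏ i, pw (wxk cls κ k g i) (d i) := by
    intro d hd
    have hdm := (Finset.mem_filter.1 hd).1
    rw [Fintype.mem_piFinset] at hdm
    split_ifs with hex
    · obtain ⟨i, hi, hdi⟩ := hex
      symm
      apply Finset.prod_eq_zero (Finset.mem_univ i)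
      have hd0 : d i ≠ 0 := (Nat.pos_of_mem_divisors (hdm i)).ne'
      obtain ⟨q, hq, hqd⟩ := Nat.exists_prime_and_dvd hdi
      unfold pw
      apply Finset.prod_eq_zero (Nat.mem_primeFactors.2 ⟨hq, hqd, hd0⟩)
      unfold wxk
      rw [if_neg hi]
    · have hex' : ∀ i : I4 cls, ¬ (cls i.1.1 = k ∨ i.1.2 = ((false, false), (false, false))) →
          d i = 1 := fun i hi => by_contra fun h => hex ⟨i, hi, h⟩
      rw [Sym_exk cls (fun j _ => κ j) k hk h3 d hex', ← Finset.prod_mul_distrib]
      refine Finset.prod_congr rfl fun i _ => ?_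
      by_cases hi : cls i.1.1 = k ∨ i.1.2 = ((false, false), (false, false))
      · rw [Jr_dvdPP (Nat.dvd_of_mem_divisors (hdm i))]
        unfold pw
        rw [← Finset.prod_mul_distrib]
        refine Finset.prod_congr rfl fun p _ => ?_
        unfold wxk
        rw [if_pos hi]
      · rw [hex' i hi]
        unfold pw Jr
        rw [jacobiSym.one_right]
        simp
  rw [Finset.sum_congr rfl e2, sum_pw]
  refine Finset.prod_congr rfl fun p _ => ?_
  rw [sum_wxk cls h3 κ k hk]

end

theorem t_X4 : S_X4 := by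
  classical
  intro n cls κ g z y h3 hκ0 hκz
  have hexp := expg cls (fun j _ => κ j) g z y (fun j _ => hκ0 j) (fun j _ => hκz j)
  have k1 := key_k cls κ g z y h3 1 (by decide)
  have k2 := key_k cls κ g z y h3 2 (by decide)
  have k3 := key_k cls κ g z y h3 3 (by decide)
  have e0 : ∀ s, TK cls κ 3 s = ∏ j, (1 / 2 : ℝ) ^ (s j).primeFactors.card := by
    intro s
    unfold TK
    refine Finset.prod_congr rfl fun j _ => ?_
    simp only [if_neg (h3 j)]
    rw [Finset.prod_const]
  have e3 : ∑ s ∈ Tup (Fin n) z y, (NB cls (fun j _ => κ j) s - TK cls κ 1 s - TK cls κ 2 s +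
      ∏ j, (1 / 2 : ℝ) ^ (s j).primeFactors.card) *
      ∏ j, ∏ p ∈ (s j).primeFactors, g j p =
      ∑ s ∈ Tup (Fin n) z y, NB cls (fun j _ => κ j) s * ∏ j, pw (g j) (s j) -
      ∑ s ∈ Tup (Fin n) z y, TK cls κ 1 s * ∏ j, pw (g j) (s j) -
      ∑ s ∈ Tup (Fin n) z y, TK cls κ 2 s * ∏ j, pw (g j) (s j) +
      ∑ s ∈ Tup (Fin n) z y, TK cls κ 3 s * ∏ j, pw (g j) (s j) := by
    rw [← Finset.sum_sub_distrib, ← Finset.sum_sub_distrib, ← Finset.sum_add_distrib]
    refine Finset.sum_congr rfl fun s _ => ?_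
    rw [e0]
    unfold pw
    ring
  rw [e3, hexp, k1, k2, k3]
  set F : (I4 cls → ℕ) → ℝ := fun d => (∏ i, pw (fun p => w4 cls i * g i.1.1 p) (d i)) *
        Pool.Agent.W262.RK.Sym (L4 cls) (κ4 cls (fun j _ => κ j)) d with hF
  set P : Fin 4 → (I4 cls → ℕ) → Prop := fun k d => ∃ i : I4 cls,
        ¬ (cls i.1.1 = k ∨ i.1.2 = ((false, false), (false, false))) ∧ d i ≠ 1 with hP
  have h12 : ∀ d, (¬ P 1 d ∧ ¬ P 2 d) ↔ ¬ P 3 d := by
    intro d
    simp only [hP, not_exists, not_and, not_not]
    constructor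
    · rintro ⟨a, b⟩ i hi
      by_cases h1 : cls i.1.1 = 1
      · refine b i ?_
        rintro (h | h)
        · rw [h1] at h
          exact absurd h (by decide)
        · exact hi (Or.inr h)
      · refine a i ?_
        rintro (h | h)
        · exact h1 h
        · exact hi (Or.inr h)
    · intro a
      constructor
      · intro i hi
        refine a i ?_
        rintro (h | h)
        · exact h3 _ h
        · exact hi (Or.inr h)
      · intro i hi
        refine a i ?_
        rintro (h | h)
        · exact h3 _ h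
        · exact hi (Or.inr h)
  have main : ∀ T : Finset (I4 cls → ℕ), ∑ d ∈ T, F d - ∑ d ∈ T.filter (fun d => ¬ P 1 d), F d -
      ∑ d ∈ T.filter (fun d => ¬ P 2 d), F d + ∑ d ∈ T.filter (fun d => ¬ P 3 d), F d =
      ∑ d ∈ T.filter (fun d => P 1 d ∧ P 2 d), F d := by
    intro T
    simp only [Finset.sum_filter]
    rw [← Finset.sum_sub_distrib, ← Finset.sum_sub_distrib, ← Finset.sum_add_distrib]
    refine Finset.sum_congr rfl fun d _ => ?_
    have h := h12 d
    by_cases p1 : P 1 d
    · by_cases p2 : P 2 d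
      · have p3 : P 3 d := by
          by_contra hc
          exact (h.2 hc).1 p1
        simp [p1, p2, p3]
      · have p3 : P 3 d := by
          by_contra hc
          exact (h.2 hc).1 p1
        simp [p1, p2, p3]
    · by_cases p2 : P 2 d
      · have p3 : P 3 d := by
          by_contra hc
          exact (h.2 hc).2 p2
        simp [p1, p2, p3]
      · have p3 : ¬ P 3 d := h.1 ⟨p1, p2⟩
        simp [p1, p2, p3]
  rw [main (Tup (I4 cls) z y)]
  refine Finset.sum_congr (by ext d; simp only [Finset.mem_filter, hP]) fun d _ => rfl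

end Pool.Agent.V7H88.CY
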