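import Pool.Agent.V7H88.CY.X
import Pool.Agent.V7H45.NS

/-!
# Project CYC: job T, sums of multiplicative weights without characters
-/

set_option autoImplicit false

namespace Pool.Agent.V7H88.CY

open Finset Pool.Agent.W262.RK Pool.Agent.W108.RK Pool.Agent.W762.RK2 Pool.Agent.V7H45.G8
  Pool.Agent.V7H45.CY Pool.Agent.W655.RK

lemma gdc (D : ℤ) (hD : D = 0 ∨ D = 2 ∨ D = -1 ∨ D = 3 ∨ D = -3) (z : ℕ) (hz : 4 ≤ z) :
    ∃ C : ℝ, ∀ y, z < y → ∑ p ∈ PS z y, Jr D p / (p : ℝ) ≤ C := by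
  by_cases h0 : D = 0
  · subst h0
    refine ⟨0, fun y _ => le_of_eq (sum_eq_zero fun p hp => ?_)⟩
    have hp : p.Prime := (mem_filter.1 hp).2
    unfold Jr
    rw [jacobiSym.zero_left hp.one_lt]
    simp
  · refine Pool.Agent.V7H45.NS.nonsq_bound D h0 ?_ z (by omega) (by omega)
    rintro ⟨r, hr⟩
    have h3 : r * r ≤ 3 := by omega
    have h1 : -2 < r := by nlinarith
    have h2 : r < 2 := by nlinarith
    interval_cases r <;> omega

lemma loc_bd {D : ℤ} {w : ℝ} {c z p : ℕ} (hw : 0 ≤ w) (hz : 2 * c + 4 ≤ z) (hp : z < p) :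
    0 ≤ w * (1 + Jr D p) / ((p : ℝ) - c) ∧
    w * (1 + Jr D p) / ((p : ℝ) - c) ≤
      w * (1 / (p : ℝ) + Jr D p / p + 4 * c * (1 / (p : ℝ) ^ 2)) := by
  have hp1 : (2 * c + 4 : ℝ) ≤ p := by exact_mod_cast (by omega : 2 * c + 4 ≤ p)
  have hc : (0:ℝ) ≤ c := Nat.cast_nonneg c
  have hp0 : (0:ℝ) < p := by linarith
  have hpc : (0:ℝ) < (p : ℝ) - c := by linarith
  have hJ0 := one_add_Jr_nonneg D p
  have hJ1 := one_add_Jr_le D p
  refine ⟨div_nonneg (mul_nonneg hw hJ0) hpc.le, ?_⟩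
  rw [mul_div_assoc]
  apply mul_le_mul_of_nonneg_left _ hw
  have e1 : (1 + Jr D p) / ((p : ℝ) - c) = 1 / (p : ℝ) + Jr D p / p +
      (1 + Jr D p) * (c / (p * (p - c))) := by
    field_simp
    ring
  have e2 : (c : ℝ) / (p * (p - c)) ≤ 2 * c * (1 / (p : ℝ) ^ 2) := by
    rw [mul_one_div, div_le_div_iff₀ (by positivity) (by positivity)]
    have h4 : (p : ℝ) ^ 2 ≤ 2 * (p * (p - c)) := by nlinarith
    nlinarith
  have e3 : 0 ≤ (c : ℝ) / (p * (p - c)) := by positivity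
  rw [e1]
  nlinarith

theorem t_T : S_T := by
  classical
  intro n D w c z hD hw hz
  obtain ⟨C0, hC0, hmer⟩ := mertens
  obtain ⟨K, hK, hsq⟩ := sum_inv_sq
  have hg := fun j => gdc (D j) (hD j) z (by omega)
  choose C1 hC1 using hg
  refine ⟨Real.exp (∑ j, w j * (C0 + C1 j + 4 * c * K)), fun y hy => ?_⟩
  have hly : 0 < Real.log y := Real.log_pos (by exact_mod_cast (by omega : 1 < y))
  have e0 : ∑ s ∈ Tup (Fin n) z y, ∏ j, gr (D j) (w j) c (s j) =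
      ∏ p ∈ PS z y, (1 + ∑ j, w j * (1 + Jr (D j) p) / ((p : ℝ) - c)) := by
    rw [← Finset.prod_coe_sort]
    exact sum_pw z y (fun j p => w j * (1 + Jr (D j) p) / ((p : ℝ) - c))
  have hnn : ∀ p ∈ PS z y, 0 ≤ ∑ j, w j * (1 + Jr (D j) p) / ((p : ℝ) - c) := fun p hp =>
    Finset.sum_nonneg fun j _ => (loc_bd (hw j) hz (mem_Ioc.1 (mem_filter.1 hp).1).1).1
  rw [e0]
  refine (prod_le_exp _ _ fun p hp => by have := hnn p hp; linarith).trans ?_
  rw [Real.rpow_def_of_pos hly, ← Real.exp_add, Real.exp_le_exp, Finset.sum_comm, Finset.mul_sum,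
    ← Finset.sum_add_distrib]
  refine Finset.sum_le_sum fun j _ => ?_
  calc ∑ p ∈ PS z y, w j * (1 + Jr (D j) p) / ((p : ℝ) - c)
      ≤ ∑ p ∈ PS z y, w j * (1 / (p : ℝ) + Jr (D j) p / p + 4 * c * (1 / (p : ℝ) ^ 2)) :=
        Finset.sum_le_sum fun p hp => (loc_bd (hw j) hz (mem_Ioc.1 (mem_filter.1 hp).1).1).2
    _ = w j * (∑ p ∈ PS z y, 1 / (p : ℝ) + ∑ p ∈ PS z y, Jr (D j) p / (p : ℝ) +
        4 * c * ∑ p ∈ PS z y, 1 / (p : ℝ) ^ 2) := by
        rw [← Finset.mul_sum, Finset.sum_add_distrib, Finset.sum_add_distrib, ← Finset.mul_sum]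
    _ ≤ w j * (Real.log (Real.log y) + C0 + C1 j + 4 * c * K) := by
        apply mul_le_mul_of_nonneg_left _ (hw j)
        have a1 := hmer z y (by omega)
        have a2 := hC1 j y hy
        have a3 := mul_le_mul_of_nonneg_left (hsq (PS z y)) (by positivity : (0:ℝ) ≤ 4 * c)
        linarith
    _ = w j * (C0 + C1 j + 4 * c * K) + Real.log (Real.log y) * w j := by ring

end Pool.Agent.V7H88.CY
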