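import Pool.Agent.V7H45.CY.Spec2

/-!
# Project CYC: job BOX, the sum over a box
-/

set_option autoImplicit false
set_option maxHeartbeats 400000

namespace Pool.Agent.V7H88.CY

open Finset Pool.Agent.W262.RK Pool.Agent.W307.RT Pool.Agent.V7H45.G8 Pool.Agent.V7H45.CY

lemma R8_nonneg (M N : ℤ) : 0 ≤ R8 M N := by
  unfold R8
  positivity

theorem t_BOX : S_BOX := by
  classical
  intro n f M N hMn hNn hf havg
  have M_neg : ∀ a b e : ℤ, (e = 1 ∨ e = -1) → M (e * a) (e * b) = M a b := by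
    rintro a b e (rfl | rfl)
    · rw [one_mul, one_mul]
    · rw [neg_one_mul, neg_one_mul]
      exact hMn a b
  have N_neg : ∀ a b e : ℤ, (e = 1 ∨ e = -1) → N (e * a) (e * b) = N a b := by
    rintro a b e (rfl | rfl)
    · rw [one_mul, one_mul]
    · rw [neg_one_mul, neg_one_mul]
      exact hNn a b
  obtain ⟨q, hq⟩ : ∃ q : ℕ, q = 2 := ⟨_, rfl⟩
  have hqz : (q : ℤ) = 2 := by rw [hq]; rfl
  set g : ℤ × ℤ → ℝ := fun t => if IsCoprime t.1 t.2 ∧ M t.1 (t.2 + q * t.1) ≠ 0 ∧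
    N t.1 (t.2 + q * t.1) ≠ 0 ∧ M t.1 (t.2 + q * t.1) ≠ N t.1 (t.2 + q * t.1) then
    R8 (M t.1 (t.2 + q * t.1)) (N t.1 (t.2 + q * t.1)) else 0 with hg
  have hg0 : ∀ t, 0 ≤ g t := by
    intro t
    rw [hg]
    simp only
    split_ifs
    · exact R8_nonneg _ _
    · exact le_rfl
  have hgc : ∀ t, g t ≠ 0 → IsCoprime t.1 t.2 := by
    intro t ht
    by_contra h
    apply ht
    rw [hg]
    simp only
    rw [if_neg (fun h' => h h'.1)]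
  have hquad : ∀ e ∈ sgs, ∃ C : ℝ, ∀ X : ℕ, 1 ≤ X → ∑ t ∈ Icc 1 X ×ˢ Icc 1 X,
      g (e.1 * ((t.1 : ℕ) : ℤ), e.2 * ((t.2 : ℕ) : ℤ)) ≤ C * (X : ℝ) ^ 2 := by
    intro e he
    have he' := mem_sgs.1 he
    have hee : e.1 * e.2 = 1 ∨ e.1 * e.2 = -1 := by
      rcases he'.1 with h3 | h3 <;> rcases he'.2 with h4 | h4 <;> rw [h3, h4] <;> simp
    have hsq : e.1 * e.1 = 1 := by
      rcases he'.1 with h3 | h3 <;> rw [h3] <;> norm_num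
    obtain ⟨C, hC⟩ := havg (e.1 * e.2) hee
    refine ⟨C, fun X hX => le_trans ?_ (hC X hX)⟩
    rw [sum_filter]
    apply sum_le_sum
    intro t _
    have hMe : M (e.1 * ((t.1 : ℕ) : ℤ)) (e.2 * ((t.2 : ℕ) : ℤ) + q * (e.1 * ((t.1 : ℕ) : ℤ))) =
        M (t.1 : ℤ) (e.1 * e.2 * (t.2 : ℤ) + 2 * (t.1 : ℤ)) := by
      rw [← M_neg (t.1 : ℤ) (e.1 * e.2 * (t.2 : ℤ) + 2 * (t.1 : ℤ)) e.1 he'.1, hqz]
      congr 1
      linear_combination (-(e.2 * ((t.2 : ℕ) : ℤ))) * hsq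
    have hNe : N (e.1 * ((t.1 : ℕ) : ℤ)) (e.2 * ((t.2 : ℕ) : ℤ) + q * (e.1 * ((t.1 : ℕ) : ℤ))) =
        N (t.1 : ℤ) (e.1 * e.2 * (t.2 : ℤ) + 2 * (t.1 : ℤ)) := by
      rw [← N_neg (t.1 : ℤ) (e.1 * e.2 * (t.2 : ℤ) + 2 * (t.1 : ℤ)) e.1 he'.1, hqz]
      congr 1
      linear_combination (-(e.2 * ((t.2 : ℕ) : ℤ))) * hsq
    rw [hg]
    simp only
    rw [hMe, hNe]
    by_cases h : IsCoprime (e.1 * ((t.1 : ℕ) : ℤ)) (e.2 * ((t.2 : ℕ) : ℤ)) ∧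
        M (t.1 : ℤ) (e.1 * e.2 * (t.2 : ℤ) + 2 * (t.1 : ℤ)) ≠ 0 ∧
        N (t.1 : ℤ) (e.1 * e.2 * (t.2 : ℤ) + 2 * (t.1 : ℤ)) ≠ 0 ∧
        M (t.1 : ℤ) (e.1 * e.2 * (t.2 : ℤ) + 2 * (t.1 : ℤ)) ≠
          N (t.1 : ℤ) (e.1 * e.2 * (t.2 : ℤ) + 2 * (t.1 : ℤ))
    · rw [if_pos h, if_pos]
      refine ⟨?_, ?_⟩
      · have h1 := h.1
        rw [Int.isCoprime_iff_gcd_eq_one] at h1
        have h2 : Int.gcd (e.1 * ((t.1 : ℕ) : ℤ)) (e.2 * ((t.2 : ℕ) : ℤ)) = Nat.gcd t.1 t.2 := by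
          rcases he'.1 with h3 | h3 <;> rcases he'.2 with h4 | h4 <;> rw [h3, h4] <;> simp
        rw [h2] at h1
        exact h1
      · intro j
        exact hf _ _ h.2.1 h.2.2.1 h.2.2.2 j
    · rw [if_neg h]
      split_ifs
      · exact R8_nonneg _ _
      · exact le_rfl
  choose! Ce hCe using hquad
  set D : ℝ := g (0, 1) + g (0, -1) + g (1, 0) + g (-1, 0) with hD
  have hD0 : 0 ≤ D := by
    have h1 := hg0 (0, 1)
    have h2 := hg0 (0, -1)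
    have h3 := hg0 (1, 0)
    have h4 := hg0 (-1, 0)
    rw [hD]
    linarith
  have hS0 : 0 ≤ ∑ e ∈ sgs, |Ce e| := sum_nonneg fun _ _ => abs_nonneg _
  refine ⟨(∑ e ∈ sgs, |Ce e| + D) * ((q + 1 : ℕ) : ℝ) ^ 2, by positivity, fun T hT => ?_⟩
  have h1 := box_shift g hg0 q T
  have h2 := box_le g hg0 hgc ((q + 1) * T)
  have hX1 : 1 ≤ (q + 1) * T := Nat.mul_pos (Nat.succ_pos q) hT
  have h3 : ∑ e ∈ sgs, ∑ t ∈ Icc 1 ((q + 1) * T) ×ˢ Icc 1 ((q + 1) * T),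
      g (e.1 * ((t.1 : ℕ) : ℤ), e.2 * ((t.2 : ℕ) : ℤ)) ≤
      (∑ e ∈ sgs, |Ce e|) * (((q + 1) * T : ℕ) : ℝ) ^ 2 := by
    rw [sum_mul]
    apply sum_le_sum
    intro e he
    refine (hCe e he _ hX1).trans ?_
    exact mul_le_mul_of_nonneg_right (le_abs_self _) (by positivity)
  have h4 : D ≤ D * (((q + 1) * T : ℕ) : ℝ) ^ 2 := by
    apply le_mul_of_one_le_right hD0
    apply one_le_pow₀
    exact_mod_cast hX1
  have h5 : ∑ t ∈ (Box T).filter (fun t : ℤ × ℤ =>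
      IsCoprime t.1 t.2 ∧ M t.1 t.2 ≠ 0 ∧ N t.1 t.2 ≠ 0 ∧ M t.1 t.2 ≠ N t.1 t.2),
      R8 (M t.1 t.2) (N t.1 t.2) = ∑ t ∈ Box T, g (t.1, t.2 - q * t.1) := by
    rw [sum_filter]
    apply sum_congr rfl
    intro t _
    have h6 : t.2 - q * t.1 + q * t.1 = t.2 := by ring
    have h7 : IsCoprime t.1 (t.2 - q * t.1) ↔ IsCoprime t.1 t.2 := by
      have : t.2 - q * t.1 = t.2 + (-(q : ℤ)) * t.1 := by ring
      rw [this]
      exact IsCoprime.add_mul_right_right_iff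
    rw [hg]
    simp only
    rw [h6]
    simp only [h7]
  have h8 : ∑ t ∈ Box T, g (t.1, t.2 - q * t.1) ≤
      (∑ e ∈ sgs, |Ce e|) * (((q + 1) * T : ℕ) : ℝ) ^ 2 + D * (((q + 1) * T : ℕ) : ℝ) ^ 2 :=
    h1.trans (h2.trans (add_le_add h3 h4))
  have h9 : (∑ e ∈ sgs, |Ce e| + D) * ((q + 1 : ℕ) : ℝ) ^ 2 * (T : ℝ) ^ 2 =
      (∑ e ∈ sgs, |Ce e|) * (((q + 1) * T : ℕ) : ℝ) ^ 2 + D * (((q + 1) * T : ℕ) : ℝ) ^ 2 := by
    push_cast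
    ring
  rw [h9, ← h5] at *
  refine le_trans (le_of_eq ?_) h8
  refine sum_congr (by ext t; simp only [mem_filter]) fun _ _ => rfl

end Pool.Agent.V7H88.CY
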